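import Pool.Agent.Run7.h675.SV.One
import Pool.Agent.Run7.h675.Lor

/-!
Lorentz forms: the cone of the time-like vectors.
-/

set_option autoImplicit false
set_option linter.unusedSectionVars false

open Pool.Agent.N520.SV Pool.Agent.W689.Mk Filter Topology
open Run7.h262.SV (CvxData ICone lines)

namespace Run7.h675.SV

section
variable {Γ E : Type} [Group Γ] [NormedAddCommGroup E] [NormedSpace ℝ E] [FiniteDimensional ℝ E]
  {hol : Γ →* (E ≃ᵃ[ℝ] E)} {W : Submodule ℝ E} {B : E →L[ℝ] E →L[ℝ] ℝ} {e : E}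

/-- time-like vectors are not orthogonal to `e` -/
theorem Lor_ne (L : Lor hol W B e) {w : E} (hw : w ∈ W) (h : B w w < 0) : B w e ≠ 0 := by
  intro h0
  have hw0 : w ≠ 0 := by
    rintro rfl
    rw [map_zero] at h
    exact lt_irrefl _ h
  exact absurd (L.pos w hw hw0 h0) (not_lt.2 h.le)

/-- the orthogonal complement of a time-like vector -/
theorem Lor_perp (L : Lor hol W B e) {u w : E} (hu : u ∈ W) (hw : w ∈ W) (h : B u u < 0)
    (h0 : B w u = 0) (hw0 : w ≠ 0) : 0 < B w w := by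
  have hue := Lor_ne L hu h
  set r : ℝ := B w e / B u e with hr
  have h1 : B (w - r • u) e = 0 := by
    rw [map_sub, map_smul]
    show B w e - r * B u e = 0
    rw [hr, div_mul_cancel₀ _ hue, sub_self]
  have h2 : B u w = 0 := by rw [L.symm u hu w hw, h0]
  have h3 : B (w - r • u) (w - r • u) = B w w + r ^ 2 * B u u := by
    have e1 : B (w - r • u) (w - r • u) = B w w - r * B w u - r * B u w + r * r * B u u := by
      simp only [map_sub, map_smul, sub_apply, smul_apply, smul_eq_mul]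
      ring
    rw [e1, h0, h2]
    ring
  by_contra hn
  push Not at hn
  have h4 : B (w - r • u) (w - r • u) ≤ 0 := by
    rw [h3]
    nlinarith [sq_nonneg r]
  have h5 : w - r • u = 0 := by
    by_contra hne
    exact absurd (L.pos _ (W.sub_mem hw (W.smul_mem _ hu)) hne h1) (not_lt.2 h4)
  rw [sub_eq_zero] at h5
  rw [h5, map_smul] at h0
  have h6 : r * B u u = 0 := h0
  have h7 : r = 0 := (mul_eq_zero.1 h6).resolve_right h.ne
  rw [h7, zero_smul] at h5
  exact hw0 h5

/-- the time-like vectors on the side of `e` -/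
def Fut (W : Submodule ℝ E) (B : E →L[ℝ] E →L[ℝ] ℝ) (e : E) : Set W :=
  {w | B (w : E) w < 0 ∧ B (w : E) e < 0}

theorem Fut_neg (L : Lor hol W B e) {u v : W} (hu : u ∈ Fut W B e) (hv : v ∈ Fut W B e) :
    B (u : E) v < 0 := by
  obtain ⟨h1, h2⟩ := hu
  obtain ⟨h3, h4⟩ := hv
  set r : ℝ := B (u : E) e / B (v : E) e with hr
  have hr0 : 0 < r := div_pos_of_neg_of_neg h2 h4
  have h5 : B ((u : E) - r • (v : E)) e = 0 := by
    rw [map_sub, map_smul]
    show B (u : E) e - r * B (v : E) e = 0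
    rw [hr, div_mul_cancel₀ _ h4.ne, sub_self]
  have h6 : 0 ≤ B ((u : E) - r • (v : E)) ((u : E) - r • (v : E)) := by
    by_cases h0 : (u : E) - r • (v : E) = 0
    · simp [h0]
    · exact (L.pos _ (W.sub_mem u.2 (W.smul_mem _ v.2)) h0 h5).le
  have e1 : B ((u : E) - r • (v : E)) ((u : E) - r • (v : E)) =
      B (u : E) u - r * B (u : E) v - r * B (v : E) u + r * r * B (v : E) v := by
    simp only [map_sub, map_smul, sub_apply, smul_apply, smul_eq_mul]
    ring
  rw [e1, L.symm v v.2 u u.2] at h6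
  have h7 : r * r * B (v : E) v < 0 := mul_neg_of_pos_of_neg (by positivity) h3
  have h8 : r * B (u : E) v < 0 := by linarith
  by_contra hn
  push Not at hn
  have := mul_nonneg hr0.le hn
  linarith

/-- the positive definite form of a time-like vector -/
noncomputable def maj (B : E →L[ℝ] E →L[ℝ] ℝ) (u v : E) : ℝ := B v v - 2 * (B u v) ^ 2 / B u u

theorem maj_pos (L : Lor hol W B e) {u v : E} (hu : u ∈ W) (hv : v ∈ W) (h : B u u < 0)
    (hv0 : v ≠ 0) : 0 < maj B u v := by
  set r : ℝ := B u v / B u u with hr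
  set w : E := v - r • u with hw
  have hwW : w ∈ W := W.sub_mem hv (W.smul_mem _ hu)
  have h1 : B u w = 0 := by
    rw [hw, map_sub, map_smul, smul_eq_mul, hr, div_mul_cancel₀ _ h.ne, sub_self]
  have h1' : B w u = 0 := by rw [L.symm w hwW u hu, h1]
  have hvw : v = w + r • u := by rw [hw]; abel
  have h2 : B v v = B w w + r ^ 2 * B u u := by
    have e1 : B (w + r • u) (w + r • u) = B w w + r * B w u + r * B u w + r * r * B u u := by
      simp only [map_add, map_smul, add_apply, smul_apply, smul_eq_mul]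
      ring
    rw [← hvw, h1, h1'] at e1
    rw [e1]
    ring
  have h3 : 2 * (B u v) ^ 2 / B u u = 2 * r ^ 2 * B u u := by
    rw [hr]
    field_simp
  have h4 : maj B u v = B w w - r ^ 2 * B u u := by
    rw [maj, h3, h2]
    ring
  rw [h4]
  by_cases hw0 : w = 0
  · have hr0 : r ≠ 0 := by
      intro h0
      apply hv0
      rw [hvw, hw0, h0, zero_smul, add_zero]
    have : 0 < r ^ 2 := by positivity
    rw [hw0, map_zero]
    nlinarith
  · have h5 := Lor_perp L hu hwW h h1' hw0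
    nlinarith [sq_nonneg r]

/-- the sign -/
noncomputable def sgn (hol : Γ →* (E ≃ᵃ[ℝ] E)) (B : E →L[ℝ] E →L[ℝ] ℝ) (e : E) (γ : Γ) : ℝ :=
  if B (lin hol γ e) e < 0 then 1 else -1

theorem sgn_sq (B : E →L[ℝ] E →L[ℝ] ℝ) (e : E) (γ : Γ) : sgn hol B e γ * sgn hol B e γ = 1 := by
  unfold sgn
  split_ifs <;> norm_num

theorem sgn_ne (B : E →L[ℝ] E →L[ℝ] ℝ) (e : E) (γ : Γ) : sgn hol B e γ ≠ 0 := by
  unfold sgn
  split_ifs <;> norm_num

variable (hW : ∀ γ : Γ, ∀ v ∈ W, lin hol γ v ∈ W)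
include hW

theorem sgn_e (L : Lor hol W B e) (γ : Γ) :
    (⟨sgn hol B e γ • lin hol γ e, W.smul_mem _ (hW γ e L.mem)⟩ : W) ∈ Fut W B e := by
  have h1 : B (lin hol γ e) (lin hol γ e) < 0 := by
    rw [L.inv γ e L.mem e L.mem]
    exact L.neg
  have h2 := Lor_ne L (hW γ e L.mem) h1
  refine ⟨?_, ?_⟩
  · show B (sgn hol B e γ • lin hol γ e) (sgn hol B e γ • lin hol γ e) < 0
    have e1 : B (sgn hol B e γ • lin hol γ e) (sgn hol B e γ • lin hol γ e) =
        (sgn hol B e γ * sgn hol B e γ) * B (lin hol γ e) (lin hol γ e) := by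
      simp only [map_smul, smul_apply, smul_eq_mul]
      ring
    rw [e1, sgn_sq, one_mul]
    exact h1
  · show B (sgn hol B e γ • lin hol γ e) e < 0
    rw [map_smul]
    show sgn hol B e γ * B (lin hol γ e) e < 0
    unfold sgn
    split_ifs with h
    · rw [one_mul]
      exact h
    · push Not at h
      have : 0 < B (lin hol γ e) e := lt_of_le_of_ne h (Ne.symm h2)
      linarith

theorem sgn_fut (L : Lor hol W B e) (γ : Γ) {w : W} (hw : w ∈ Fut W B e) :
    (⟨sgn hol B e γ • lin hol γ w, W.smul_mem _ (hW γ w w.2)⟩ : W) ∈ Fut W B e := by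
  have h1 : B (lin hol γ w) (lin hol γ w) < 0 := by
    rw [L.inv γ w w.2 w w.2]
    exact hw.1
  have e1 : ∀ r : ℝ, B (r • lin hol γ w) (r • lin hol γ w) =
      (r * r) * B (lin hol γ w) (lin hol γ w) := by
    intro r
    simp only [map_smul, smul_apply, smul_eq_mul]
    ring
  have h2 := Lor_ne L (hW γ w w.2) h1
  have h3 : B (sgn hol B e γ • lin hol γ w) (sgn hol B e γ • lin hol γ w) < 0 := by
    rw [e1, sgn_sq, one_mul]
    exact h1
  refine ⟨h3, ?_⟩
  show B (sgn hol B e γ • lin hol γ w) e < 0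
  by_contra hn
  push Not at hn
  have h4 : B (sgn hol B e γ • lin hol γ w) e = sgn hol B e γ * B (lin hol γ w) e := by
    rw [map_smul]
    rfl
  have h5 : B (sgn hol B e γ • lin hol γ w) e ≠ 0 := by
    rw [h4]
    exact mul_ne_zero (sgn_ne B e γ) h2
  have h6 : 0 < B (sgn hol B e γ • lin hol γ w) e := lt_of_le_of_ne hn (Ne.symm h5)
  have h7 : (⟨(-sgn hol B e γ) • lin hol γ w, W.smul_mem _ (hW γ w w.2)⟩ : W) ∈ Fut W B e := by
    refine ⟨?_, ?_⟩
    · show B ((-sgn hol B e γ) • lin hol γ w) ((-sgn hol B e γ) • lin hol γ w) < 0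
      rw [e1, neg_mul_neg, sgn_sq, one_mul]
      exact h1
    · show B ((-sgn hol B e γ) • lin hol γ w) e < 0
      rw [neg_smul, map_neg]
      show -B (sgn hol B e γ • lin hol γ w) e < 0
      linarith
  have h8 := Fut_neg L h7 (sgn_e hW L γ)
  have h9 : B ((-sgn hol B e γ) • lin hol γ w) (sgn hol B e γ • lin hol γ e) =
      -((sgn hol B e γ * sgn hol B e γ) * B (lin hol γ w) (lin hol γ e)) := by
    simp only [map_smul, smul_apply, smul_eq_mul, neg_smul, map_neg, neg_apply]
    ring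
  have h10 : B ((-sgn hol B e γ) • lin hol γ w) (sgn hol B e γ • lin hol γ e) < 0 := h8
  rw [h9, sgn_sq, one_mul, L.inv γ w w.2 e L.mem] at h10
  have := hw.2
  linarith

theorem sgn_mul (L : Lor hol W B e) (γ δ : Γ) :
    sgn hol B e (γ * δ) = sgn hol B e γ * sgn hol B e δ := by
  have h1 := sgn_fut hW L γ (sgn_e hW L δ)
  have h2 := sgn_e hW L (γ * δ)
  have h1' : B (sgn hol B e γ • lin hol γ (sgn hol B e δ • lin hol δ e)) e < 0 := h1.2
  have h2' : B (sgn hol B e (γ * δ) • lin hol (γ * δ) e) e < 0 := h2.2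
  have e1 : lin hol γ (sgn hol B e δ • lin hol δ e) = sgn hol B e δ • lin hol (γ * δ) e := by
    rw [lin_smul', lin_mul]
  rw [e1, smul_smul, map_smul] at h1'
  rw [map_smul] at h2'
  have h3 : sgn hol B e γ * sgn hol B e δ * B (lin hol (γ * δ) e) e < 0 := h1'
  have h4 : sgn hol B e (γ * δ) * B (lin hol (γ * δ) e) e < 0 := h2'
  have hs : ∀ γ : Γ, sgn hol B e γ = 1 ∨ sgn hol B e γ = -1 := by
    intro γ
    unfold sgn
    split_ifs
    · exact Or.inl rfl
    · exact Or.inr rfl
  rcases hs γ with h5 | h5 <;> rcases hs δ with h6 | h6 <;> rcases hs (γ * δ) with h7 | h7 <;>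
    rw [h5, h6] at h3 <;> rw [h7] at h4 <;> rw [h5, h6, h7] <;> first | (norm_num; done) | (exfalso; linarith)

/-- the action on `W` with the sign -/
noncomputable def sig (L : Lor hol W B e) : Γ →* (W ≃ₗ[ℝ] W) :=
  (LinearMap.GeneralLinearGroup.generalLinearEquiv ℝ W).toMonoidHom.comp
    (MonoidHom.toHomUnits
      { toFun := fun γ => sgn hol B e γ •
          (((hol γ).linear : E →ₗ[ℝ] E).restrict (p := W) (q := W) (hW γ))
        map_one' := by
          refine LinearMap.ext fun v => Subtype.ext ?_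
          show sgn hol B e 1 • lin hol 1 (v : E) = v
          have h1 : sgn hol B e 1 = 1 := by
            unfold sgn
            rw [lin_one', if_pos L.neg]
          rw [h1, one_smul, lin_one']
        map_mul' := by
          intro γ δ
          refine LinearMap.ext fun v => Subtype.ext ?_
          show sgn hol B e (γ * δ) • lin hol (γ * δ) (v : E) =
            sgn hol B e γ • lin hol γ (sgn hol B e δ • lin hol δ (v : E))
          rw [sgn_mul hW L, lin_smul', lin_mul, smul_smul] })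

theorem sig_apply (L : Lor hol W B e) (γ : Γ) (v : W) :
    ((sig hW L γ v : W) : E) = sgn hol B e γ • lin hol γ (v : E) := rfl

theorem sig_icone (L : Lor hol W B e) : ICone (sig hW L) (Fut W B e) := by
  refine ⟨?_, ?_, ⟨⟨e, L.mem⟩, L.neg, L.neg⟩, ?_, ?_, ?_⟩
  · exact (isOpen_lt (f := fun w : W => B (w : E) w) (g := fun _ => (0 : ℝ)) (by fun_prop)
      continuous_const).inter (isOpen_lt (f := fun w : W => B (w : E) e) (g := fun _ => (0 : ℝ))
      (by fun_prop) continuous_const)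
  · intro u hu v hv a b ha hb hab
    have h1 := Fut_neg L hu hv
    obtain ⟨h2, h3⟩ := hu
    obtain ⟨h4, h5⟩ := hv
    have e1 : B (((a • u + b • v : W)) : E) ((a • u + b • v : W) : E) =
        a * a * B (u : E) u + a * b * B (u : E) v + a * b * B (v : E) u + b * b * B (v : E) v := by
      simp only [Submodule.coe_add, Submodule.coe_smul, map_add, map_smul, add_apply,
        smul_apply, smul_eq_mul]
      ring
    have e2 : B (((a • u + b • v : W)) : E) e = a * B (u : E) e + b * B (v : E) e := by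
      simp only [Submodule.coe_add, Submodule.coe_smul, map_add, map_smul, add_apply,
        smul_apply, smul_eq_mul]
    have hab' : 0 < a ∨ 0 < b := by
      by_contra h
      push Not at h
      linarith
    have g1 : a * a * B (u : E) u ≤ 0 := by nlinarith [mul_self_nonneg a]
    have g2 : b * b * B (v : E) v ≤ 0 := by nlinarith [mul_self_nonneg b]
    have g3 : a * b * B (u : E) v ≤ 0 := by nlinarith [mul_nonneg ha hb]
    have g4 : a * B (u : E) e ≤ 0 := by nlinarith
    have g5 : b * B (v : E) e ≤ 0 := by nlinarith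
    refine ⟨?_, ?_⟩
    · rw [e1, L.symm v v.2 u u.2]
      rcases hab' with h | h
      · have : a * a * B (u : E) u < 0 := mul_neg_of_pos_of_neg (by positivity) h2
        linarith
      · have : b * b * B (v : E) v < 0 := mul_neg_of_pos_of_neg (by positivity) h4
        linarith
    · rw [e2]
      rcases hab' with h | h
      · have : a * B (u : E) e < 0 := mul_neg_of_pos_of_neg h h3
        linarith
      · have : b * B (v : E) e < 0 := mul_neg_of_pos_of_neg h h5
        linarith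
  · rintro ⟨h, -⟩
    rw [Submodule.coe_zero, map_zero] at h
    exact lt_irrefl _ h
  · rintro t ht u ⟨h1, h2⟩
    refine ⟨?_, ?_⟩
    · have e1 : B ((t • u : W) : E) ((t • u : W) : E) = t * t * B (u : E) u := by
        simp only [Submodule.coe_smul, map_smul, smul_apply, smul_eq_mul]
        ring
      rw [e1]
      exact mul_neg_of_pos_of_neg (by positivity) h1
    · have e1 : B ((t • u : W) : E) e = t * B (u : E) e := by
        simp only [Submodule.coe_smul, map_smul, smul_apply, smul_eq_mul]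
      rw [e1]
      exact mul_neg_of_pos_of_neg ht h2
  · intro γ u hu
    exact sgn_fut hW L γ hu

theorem sig_proper (L : Lor hol W B e) (A : Set W) (hA : IsCompact A) (hAC : A ⊆ Fut W B e) :
    ∃ c : ℝ, ∀ γ : Γ, (∃ u ∈ A, ∃ t : ℝ, 0 < t ∧ t • sig hW L γ u ∈ A) →
      Run7.h262.SV.BddBlock hol ⊥ W c γ := by
  rcases A.eq_empty_or_nonempty with rfl | hne
  · exact ⟨0, fun γ ⟨u, hu, _⟩ => absurd hu (Set.notMem_empty _)⟩
  have he0 : (⟨e, L.mem⟩ : W) ≠ 0 := by
    intro h
    have h1 : e = 0 := congrArg Subtype.val h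
    have h2 := L.neg
    rw [h1, map_zero] at h2
    exact lt_irrefl _ h2
  have : Nontrivial W := ⟨⟨_, _, he0⟩⟩
  have : ProperSpace W := FiniteDimensional.proper_real W
  have hsn : (Metric.sphere (0 : W) 1).Nonempty := NormedSpace.sphere_nonempty.2 zero_le_one
  have hcomp : IsCompact (A ×ˢ Metric.sphere (0 : W) 1) := hA.prod (isCompact_sphere 0 1)
  have hcont : ContinuousOn (fun z : W × W => maj B (z.1 : E) (z.2 : E))
      (A ×ˢ Metric.sphere (0 : W) 1) := by
    unfold maj
    refine ContinuousOn.sub (by fun_prop) (ContinuousOn.div (by fun_prop) (by fun_prop) ?_)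
    rintro ⟨u, v⟩ ⟨hu, -⟩
    exact (hAC hu).1.ne
  obtain ⟨z0, hz0, hmin⟩ := hcomp.exists_isMinOn (hne.prod hsn) hcont
  obtain ⟨z1, hz1, hmax⟩ := hcomp.exists_isMaxOn (hne.prod hsn) hcont
  have hpos : ∀ z ∈ A ×ˢ Metric.sphere (0 : W) 1, 0 < maj B (z.1 : E) (z.2 : E) := by
    rintro ⟨u, v⟩ ⟨hu, hv⟩
    refine maj_pos L u.2 v.2 (hAC hu).1 ?_
    intro h0
    have h1 : v = 0 := Subtype.ext h0
    rw [h1, mem_sphere_zero_iff_norm, norm_zero] at hv
    exact zero_ne_one hv
  set c1 := maj B (z0.1 : E) (z0.2 : E) with hc1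
  set c2 := maj B (z1.1 : E) (z1.2 : E) with hc2
  have hc1p : 0 < c1 := hpos z0 hz0
  have hscale : ∀ (u : E) (r : ℝ) (v : E), maj B u (r • v) = r ^ 2 * maj B u v := by
    intro u r v
    unfold maj
    have e1 : B (r • v) (r • v) = r ^ 2 * B v v := by
      simp only [map_smul, smul_apply, smul_eq_mul]
      ring
    have e2 : B u (r • v) = r * B u v := by rw [map_smul, smul_eq_mul]
    rw [e1, e2]
    ring
  have hb : ∀ u ∈ A, ∀ v : W, c1 * ‖v‖ ^ 2 ≤ maj B (u : E) (v : E) ∧
      maj B (u : E) (v : E) ≤ c2 * ‖v‖ ^ 2 := by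
    intro u hu v
    by_cases hv : v = 0
    · subst hv
      have e0 : maj B (u : E) ((0 : W) : E) = 0 := by
        unfold maj
        rw [Submodule.coe_zero, map_zero, map_zero]
        simp
      rw [e0, norm_zero]
      simp
    · have hn : 0 < ‖v‖ := norm_pos_iff.2 hv
      have h1 : (⟨u, ‖v‖⁻¹ • v⟩ : W × W) ∈ A ×ˢ Metric.sphere (0 : W) 1 := by
        refine ⟨hu, ?_⟩
        rw [mem_sphere_zero_iff_norm, norm_smul, norm_inv, norm_norm, inv_mul_cancel₀ hn.ne']
      have h2 : c1 ≤ maj B (u : E) ((‖v‖⁻¹ • v : W) : E) := hmin h1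
      have h3 : maj B (u : E) ((‖v‖⁻¹ • v : W) : E) ≤ c2 := hmax h1
      rw [Submodule.coe_smul, hscale] at h2 h3
      have e1 : ‖v‖ ^ 2 * ((‖v‖⁻¹) ^ 2 * maj B (u : E) (v : E)) = maj B (u : E) (v : E) := by
        field_simp
      constructor
      · calc c1 * ‖v‖ ^ 2 = ‖v‖ ^ 2 * c1 := mul_comm _ _
          _ ≤ ‖v‖ ^ 2 * ((‖v‖⁻¹) ^ 2 * maj B (u : E) (v : E)) :=
            mul_le_mul_of_nonneg_left h2 (by positivity)
          _ = _ := e1
      · calc maj B (u : E) (v : E) = ‖v‖ ^ 2 * ((‖v‖⁻¹) ^ 2 * maj B (u : E) (v : E)) := e1.symm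
          _ ≤ ‖v‖ ^ 2 * c2 := mul_le_mul_of_nonneg_left h3 (by positivity)
          _ = c2 * ‖v‖ ^ 2 := mul_comm _ _
  refine ⟨Real.sqrt (c2 / c1), fun γ ⟨u, hu, t, ht, hu'⟩ => ?_⟩
  -- invariance
  have hinv : ∀ v ∈ W, maj B ((t • sig hW L γ u : W) : E) (lin hol γ v) = maj B (u : E) v := by
    intro v hv
    unfold maj
    have e1 : B ((t • sig hW L γ u : W) : E) (lin hol γ v) =
        t * sgn hol B e γ * B (u : E) v := by
      rw [Submodule.coe_smul, sig_apply, smul_smul, map_smul]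
      show t * sgn hol B e γ * B (lin hol γ u) (lin hol γ v) = _
      rw [L.inv γ u u.2 v hv]
    have e2 : B ((t • sig hW L γ u : W) : E) ((t • sig hW L γ u : W) : E) =
        t ^ 2 * B (u : E) u := by
      rw [Submodule.coe_smul, sig_apply, smul_smul]
      have : B ((t * sgn hol B e γ) • lin hol γ (u : E)) ((t * sgn hol B e γ) • lin hol γ (u : E)) =
          t ^ 2 * (sgn hol B e γ * sgn hol B e γ) * B (lin hol γ (u : E)) (lin hol γ (u : E)) := by
        simp only [map_smul, smul_apply, smul_eq_mul]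
        ring
      rw [this, sgn_sq, L.inv γ u u.2 u u.2]
      ring
    rw [e1, e2, L.inv γ v hv v hv]
    have hu0 := (hAC hu).1.ne
    have e3 : (t * sgn hol B e γ * B (u : E) v) ^ 2 =
        t ^ 2 * (sgn hol B e γ * sgn hol B e γ) * B (u : E) v ^ 2 := by ring
    rw [e3, sgn_sq, mul_one]
    have ht0 := ht.ne'
    field_simp
  have est : ∀ a b : W, c1 * ‖a‖ ^ 2 ≤ c2 * ‖b‖ ^ 2 → ‖a‖ ≤ Real.sqrt (c2 / c1) * ‖b‖ := by
    intro a b h
    have h1 : ‖a‖ ^ 2 ≤ c2 / c1 * ‖b‖ ^ 2 := by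
      rw [div_mul_eq_mul_div, le_div_iff₀ hc1p]
      linarith
    have h2 : ‖a‖ = Real.sqrt (‖a‖ ^ 2) := (Real.sqrt_sq (norm_nonneg _)).symm
    rw [h2]
    refine (Real.sqrt_le_sqrt h1).trans (le_of_eq ?_)
    rw [Real.sqrt_mul' _ (by positivity), Real.sqrt_sq (norm_nonneg _)]
  refine ⟨1, one_pos, fun v hv => ⟨⟨0, Submodule.zero_mem _, ?_⟩, 0, Submodule.zero_mem _, ?_⟩⟩
  · rw [one_smul, sub_zero]
    have h1 := (hb _ hu' ⟨lin hol γ v, hW γ v hv⟩).1
    have h2 := (hb u hu ⟨v, hv⟩).2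
    have h3 := hinv v hv
    exact est ⟨lin hol γ v, hW γ v hv⟩ ⟨v, hv⟩ (h1.trans (h3.le.trans h2))
  · rw [inv_one, one_smul, sub_zero]
    have h1 := (hb u hu ⟨lin hol γ⁻¹ v, hW γ⁻¹ v hv⟩).1
    have h2 := (hb _ hu' ⟨v, hv⟩).2
    have h3 := hinv (lin hol γ⁻¹ v) (hW γ⁻¹ v hv)
    rw [lin_apply_inv] at h3
    exact est ⟨lin hol γ⁻¹ v, hW γ⁻¹ v hv⟩ ⟨v, hv⟩ (h1.trans (h3.symm.le.trans h2))

end

end Run7.h675.SV
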