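import Pool.Agent.Run7.h675.LorAny
import Pool.Agent.N520.RO.PlaneF
import Pool.Agent.N667.RO.Hyp

/-!
Invariant planes: the fundamental group is virtually solvable.
-/

set_option autoImplicit false

open Set Filter Topology
open Pool.Agent.W689.Mk Pool.Agent.R522.Mk.Rk Pool.Agent.N520.RO

namespace Run7.h675

theorem stdRep_matrix {V : Type} [NormedAddCommGroup V] [NormedSpace ℝ V]
    (b : Module.Basis (Fin 2) ℝ V) (T : V →ₗ[ℝ] V) (hd : LinearMap.det T = 1) :
    ∃ g : Matrix.SpecialLinearGroup (Fin 2) ℝ, ∀ v : V, stdRep b g v = T v := by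
  have hm : (LinearMap.toMatrix b b T).det = 1 := by rw [LinearMap.det_toMatrix, hd]
  let g : Matrix.SpecialLinearGroup (Fin 2) ℝ := ⟨LinearMap.toMatrix b b T, hm⟩
  refine ⟨g, fun v => (stdRep_apply b g v).trans ?_⟩
  show ∑ i, ((LinearMap.toMatrix b b T).mulVec (b.repr v)) i • b i = _
  rw [LinearMap.toMatrix_mulVec_repr]
  exact b.sum_repr _

section
variable {X Γ E : Type} [TopologicalSpace X] [T2Space X] [Group Γ] [MulAction Γ X]
  [NormedAddCommGroup E] [NormedSpace ℝ E] [FiniteDimensional ℝ E]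
  {dev : X → E} {hol : Γ →* (E ≃ᵃ[ℝ] E)} {W : Submodule ℝ E}
  {S : ℕ → Submodule ℝ E} {m : ℕ}

/-- the determinants on an invariant subspace -/
noncomputable def dtHom (hW : ∀ γ : Γ, ∀ v ∈ W, lin hol γ v ∈ W) : Γ →* ℝ where
  toFun γ := LinearMap.det (((hol γ).linear : E →ₗ[ℝ] E).restrict (p := W) (q := W) (hW γ))
  map_one' := by
    have h : (((hol 1).linear : E →ₗ[ℝ] E).restrict (p := W) (q := W) (hW 1)) = LinearMap.id := by
      refine LinearMap.ext fun v => Subtype.ext ?_
      exact lin_one' (hol := hol) (v : E)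
    rw [h, LinearMap.det_id]
  map_mul' := by
    intro γ δ
    rw [← LinearMap.det_comp]
    congr 1
    refine LinearMap.ext fun v => Subtype.ext ?_
    exact lin_mul (hol := hol) γ δ (v : E)

/-- planes: completeness and virtual solvability -/
theorem BFlag.plane_solv [SecondCountableTopology X] [ConnectedSpace X]
    (D : AffData X Γ E dev hol) (hfree : ∀ (γ : Γ) (x : X), γ • x = x → γ = 1)
    (F : BFlag hol W S m) (hr : Module.finrank ℝ W = 2) {a : ℕ}
    (ha : ∀ γ ∈ derivedSeries Γ a, ∀ v, lin hol γ v - v ∈ W) :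
    IsHomeomorph dev ∧ ∃ H' : Subgroup Γ, H'.FiniteIndex ∧ Group.IsSolvable (H'.map hol) := by
  have hdev := F.plane D hr ha
  have hinj := hdev.injective
  -- the determinant on the plane
  let dtU : Γ →* ℝˣ := (dtHom F.invW).toHomUnits
  have hdet : ∀ γ : Γ, |(dtU γ : ℝ)| = 1 := fun γ => F.dt D γ
  have hfin : Finite dtU.range := by
    have hsub : (dtU.range : Set ℝˣ) ⊆ {1, -1} := by
      rintro _ ⟨γ, rfl⟩
      rcases eq_or_eq_neg_of_abs_eq (hdet γ) with h | h
      · left
        exact Units.ext h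
      · right
        exact Units.ext h
    exact ((Set.toFinite {1, -1}).subset hsub).to_subtype
  have hker : dtU.ker.FiniteIndex := Subgroup.finiteIndex_ker dtU
  let S' : ℕ → Submodule ℝ E := fun i => if i = 0 then W else if i ≤ m then S i else ⊤
  have S'0 : S' 0 = W := rfl
  have S's : ∀ i, S' (i + 1) = if i + 1 ≤ m then S (i + 1) else ⊤ := fun i =>
    if_neg (Nat.succ_ne_zero i)
  have hS' : ∀ i ≤ m, S' i = S i := by
    intro i hi
    rcases Nat.eq_zero_or_pos i with rfl | h0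
    · exact F.bot.symm
    · obtain ⟨i', rfl⟩ : ∃ i', i = i' + 1 := ⟨i - 1, by omega⟩
      rw [S's, if_pos hi]
  choose C hC using fun i : Fin m => F.bdd i i.2
  set C0 : ℝ := ∑ i, |C i| with hC0
  have hC0p : 0 ≤ C0 := Finset.sum_nonneg fun i _ => abs_nonneg _
  have hCi : ∀ i, C i ≤ C0 := fun i => (le_abs_self _).trans
    (Finset.single_le_sum (f := fun i => |C i|) (fun i _ => abs_nonneg _) (Finset.mem_univ i))
  let b : Module.Basis (Fin 2) ℝ (S' 0) := Module.finBasisOfFinrankEq ℝ W hr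
  obtain ⟨K, P, w, hR⟩ := Pool.Agent.N624.RO.t_sl2i
  refine rankF Pool.Agent.N667.RO.t_hyp (K := K) (P := P) (w := w) inferInstance hR X Γ E dev hol D
    hinj hfree dtU.ker hker S' m ⟨?_, ?_, ?_, C0, ?_, ?_⟩ (stdRep b) (stdRep_isRep b)
    (stdRep_noZero b) ?_ (a + 1) ?_
  · rw [S's, if_neg (by omega)]
  · intro i hi
    rcases Nat.lt_or_ge i m with h | h
    · rw [hS' i hi, hS' (i + 1) h]
      exact F.le i h
    · have him : i = m := by omega
      subst him
      rw [S's, if_neg (by omega)]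
      exact le_top
  · intro i hi γ _ v hv
    rw [hS' i hi] at hv ⊢
    exact F.inv i hi γ v hv
  · intro i hi γ _ v hv
    rw [hS' (i + 1) hi] at hv
    obtain ⟨y, hy, hyn, hyS⟩ := hC ⟨i, hi⟩ γ⁻¹ v hv
    refine ⟨lin hol γ v - y, ?_, ?_⟩
    · rw [hS' i hi.le]
      have h1 := F.inv i hi.le γ _ hyS
      rw [lin_sub, lin_apply_inv] at h1
      rw [← neg_sub]
      exact (S i).neg_mem h1
    · show ‖lin hol γ v - (lin hol γ v - y)‖ ≤ _
      rw [sub_sub_cancel]
      exact hyn.trans (mul_le_mul_of_nonneg_right (hCi ⟨i, hi⟩) (norm_nonneg _))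
  · intro γ _
    refine ⟨1, one_pos, fun v => ⟨⟨(hol γ).linear v, ?_, ?_⟩, (hol γ⁻¹).linear v, ?_, ?_⟩⟩
    · rw [hS' m le_rfl, F.top]
      exact Submodule.mem_top
    · rw [sub_self, norm_zero]
      positivity
    · rw [hS' m le_rfl, F.top]
      exact Submodule.mem_top
    · rw [sub_self, norm_zero]
      positivity
  · intro γ hγ
    let Bl : W →ₗ[ℝ] W := ((hol γ).linear : E →ₗ[ℝ] E).restrict (p := W) (q := W) (F.invW γ)
    have hd : LinearMap.det Bl = 1 := congrArg Units.val hγ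
    obtain ⟨g, hg⟩ := stdRep_matrix b Bl hd
    refine ⟨g, fun v => ?_⟩
    rw [hg]
    rfl
  · intro γ hγ v
    have h1 : (γ : Γ) ∈ derivedSeries Γ (a + 1) :=
      map_derivedSeries_le_derivedSeries (dtU.ker).subtype (a + 1) ⟨γ, hγ, rfl⟩
    rw [derivedSeries_succ] at h1
    exact derived_affine ha _ h1 v

end

end Run7.h675
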