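import Pool.Agent.Run7.h675.SV.Plane
import Pool.Agent.Run7.h675.SV.LorC
import Pool.Agent.Run7.h675.SV.PlaneSolv
import Pool.Agent.Run7.h675.Rational
import Pool.Agent.Run7.h675.FlagMain
import Pool.Agent.N520.SV.Fin3

/-!
Simplicial volume of closed affine manifolds with parallel volume: the cases of discompacity one.
-/

set_option autoImplicit false

open Set Filter Topology
open Pool.Agent.W689.Mk Pool.Agent.N520.SV
open Run7.h262.SV (CvxData ICone lines)

namespace Run7.h675.SV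

section
variable {Γ E : Type} [Group Γ] [NormedAddCommGroup E] [NormedSpace ℝ E]
  {hol : Γ →* (E ≃ᵃ[ℝ] E)}

theorem up_solv {H : Subgroup Γ} (hH : H.FiniteIndex)
    (h : ∃ A : Subgroup H, A.FiniteIndex ∧ Group.IsSolvable (A.map (hol.comp H.subtype))) :
    ∃ H' : Subgroup Γ, H'.FiniteIndex ∧ Group.IsSolvable (H'.map hol) := by
  obtain ⟨A, hA, hs⟩ := h
  refine ⟨A.map H.subtype, ?_, ?_⟩
  · refine ⟨?_⟩
    rw [Subgroup.index_map_subtype]
    exact mul_ne_zero hA.index_ne_zero hH.index_ne_zero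
  · rw [Subgroup.map_map]
    exact hs

variable [FiniteDimensional ℝ E] {S : ℕ → Submodule ℝ E} {m k : ℕ}

/-- comparison of the two notions of bounded blocks -/
theorem bdd_conv {A B : Submodule ℝ E} (hA : ∀ γ : Γ, ∀ v ∈ A, lin hol γ v ∈ A)
    (h : BddBlock hol A B) :
    ∃ c : ℝ, ∀ γ : Γ, Run7.h262.SV.BddBlock hol A B c γ := by
  obtain ⟨C, hC⟩ := h
  have key : ∀ γ : Γ, ∀ v ∈ B, ∃ w ∈ A, ‖lin hol γ v - w‖ ≤ C * ‖v‖ := by
    intro γ v hv
    obtain ⟨y, -, hyn, hyS⟩ := hC γ⁻¹ v hv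
    refine ⟨lin hol γ v - y, ?_, ?_⟩
    · have h1 := hA γ _ hyS
      rw [lin_sub, lin_apply_inv] at h1
      rw [← neg_sub]
      exact A.neg_mem h1
    · rw [sub_sub_cancel]
      exact hyn
  refine ⟨C, fun γ => ⟨1, one_pos, fun v hv => ⟨?_, ?_⟩⟩⟩
  · rw [one_smul]
    exact key γ v hv
  · rw [inv_one, one_smul]
    exact key γ⁻¹ v hv

end

section
variable {X Γ E : Type} [TopologicalSpace X] [T2Space X] [SecondCountableTopology X]
  [ConnectedSpace X] [Group Γ] [MulAction Γ X]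
  [NormedAddCommGroup E] [NormedSpace ℝ E] [FiniteDimensional ℝ E]
  {dev : X → E} {hol : Γ →* (E ≃ᵃ[ℝ] E)}

/-- all classes have seminorm zero -/
def AllZero (Γ X : Type) [TopologicalSpace X] [Group Γ] [MulAction Γ X] : Prop :=
  (∃ A : Subgroup Γ, A.FiniteIndex ∧ Group.IsSolvable A) ∧
    ∀ (k : ℕ) (z : Chain (k + 1) (MulAction.orbitRel.Quotient Γ X)), bdry k z = 0 →
      seminorm1 z = 0

/-- planes -/
theorem plane_all (D : AffData X Γ E dev hol) (hfree : ∀ (γ : Γ) (x : X), γ • x = x → γ = 1)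
    {H : Subgroup Γ} (hH : H.FiniteIndex) {W : Submodule ℝ E} {S : ℕ → Submodule ℝ E} {m : ℕ}
    (F : BFlag (hol.comp H.subtype) W S m) (hr : Module.finrank ℝ W = 2) {a : ℕ}
    (ha : ∀ γ ∈ derivedSeries H a, ∀ v, lin (hol.comp H.subtype) γ v - v ∈ W) :
    IsHomeomorph dev ∧ AllZero Γ X := by
  have h1 := F.plane_solv (Pool.Agent.Y449.MK.restrict D H hH)
    (fun γ x hx => Subtype.ext (hfree (γ : Γ) x hx)) hr ha
  exact ⟨h1.1, solv_zero X Γ E dev hol D hfree h1.1 (up_solv hH h1.2)⟩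

/-- conformal flags -/
theorem conf_all (D : AffData X Γ E dev hol) (hfree : ∀ (γ : Γ) (x : X), γ • x = x → γ = 1)
    (hinj : Function.Injective dev) {H : Subgroup Γ} (hH : H.FiniteIndex)
    {S : ℕ → Submodule ℝ E} {m : ℕ} (hS : Pool.Agent.N520.RO.ConformalFlag hol H S m) :
    IsHomeomorph dev ∧ AllZero Γ X := by
  have h1 := Pool.Agent.N520.RO.quasi X Γ E dev hol D hinj H hH S m hS
  exact ⟨h1.1, solv_zero X Γ E dev hol D hfree h1.1 h1.2⟩

/-- Lorentz spaces -/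
theorem lor_all (D : AffData X Γ E dev hol) (hfree : ∀ (γ : Γ) (x : X), γ • x = x → γ = 1)
    {H : Subgroup Γ} (hH : H.FiniteIndex) {W : Submodule ℝ E} {S : ℕ → Submodule ℝ E} {m : ℕ}
    (F : BFlag (hol.comp H.subtype) W S m) {B : E →L[ℝ] E →L[ℝ] ℝ} {e : E}
    (L : Lor (hol.comp H.subtype) W B e) {a : ℕ}
    (ha : ∀ γ ∈ derivedSeries H a, ∀ v, lin (hol.comp H.subtype) γ v - v ∈ W) :
    IsHomeomorph dev ∧ ∀ k : ℕ, Module.finrank ℝ E ≤ k + 1 →
      Negligible k (MulAction.orbitRel.Quotient Γ X) := by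
  have hdev := F.lorAny (Pool.Agent.Y449.MK.restrict D H hH) L ha
  refine ⟨hdev, fun k hk => ?_⟩
  have hW := F.invW
  let T : ℕ → Submodule ℝ E := fun i => if i = 0 then ⊥ else S (i - 1)
  have T0 : T 0 = ⊥ := rfl
  have Ts : ∀ i, T (i + 1) = S i := fun i => if_neg (Nat.succ_ne_zero i)
  have O : OneCone (hol.comp H.subtype) T (m + 1) 0 (sig hW L) (Fut W B e) := by
    refine ⟨T0, (Ts m).trans F.top, ?_, ?_, ?_, sig_icone hW L, ?_⟩
    · intro i hi
      rcases Nat.eq_zero_or_pos i with rfl | h0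
      · rw [T0]
        exact bot_le
      · obtain ⟨j, rfl⟩ : ∃ j, i = j + 1 := ⟨i - 1, by omega⟩
        rw [Ts, Ts]
        exact F.le j (by omega)
    · intro i hi γ v hv
      rcases Nat.eq_zero_or_pos i with rfl | h0
      · rw [T0, Submodule.mem_bot] at hv ⊢
        rw [hv, map_zero]
      · obtain ⟨j, rfl⟩ : ∃ j, i = j + 1 := ⟨i - 1, by omega⟩
        rw [Ts] at hv ⊢
        exact F.inv j (by omega) γ v hv
    · intro i hi h0
      obtain ⟨j, rfl⟩ : ∃ j, i = j + 1 := ⟨i - 1, by omega⟩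
      rw [Ts, Ts]
      exact bdd_conv (fun γ v hv => F.inv j (by omega) γ v hv) (F.bdd j (by omega))
    · intro A hA hAC
      rw [T0, zero_add, show T 1 = W from (Ts 0).trans F.bot]
      exact sig_proper hW L A hA hAC
  exact O.negl' D hfree hdev H hH (Submodule.finrank_le W) k hk

/-- the cone case of a flag with one two-dimensional quotient -/
theorem qflag_all (D : AffData X Γ E dev hol) (hfree : ∀ (γ : Γ) (x : X), γ • x = x → γ = 1)
    {H : Subgroup Γ} (hH : H.FiniteIndex) {S : ℕ → Submodule ℝ E} {m i₀ : ℕ}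
    (Q : QFlag (hol.comp H.subtype) S m i₀) :
    IsHomeomorph dev ∧ ∀ k : ℕ, Module.finrank ℝ E ≤ k + 1 →
      Negligible k (MulAction.orbitRel.Quotient Γ X) := by
  have hdev := QFlag.complete (Pool.Agent.Y449.MK.restrict D H hH) Q
  refine ⟨hdev, fun k hk => ?_⟩
  by_cases h3 : 3 ≤ Module.finrank ℝ E
  · obtain ⟨σ, hσ, hP⟩ := plane_cone (hol := hol.comp H.subtype) (Q.le i₀ Q.lt) Q.rank
      (fun γ v hv => Q.inv i₀ Q.lt.le γ v hv) (fun γ v hv => Q.inv (i₀ + 1) Q.lt γ v hv)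
    have O : OneCone (hol.comp H.subtype) S m i₀ σ Pos2 :=
      ⟨Q.bot, Q.top, Q.le, Q.inv, fun i hi hii =>
        bdd_conv (fun γ v hv => Q.inv i hi.le γ v hv) (Q.bdd hi hii), hσ, hP⟩
    refine O.negl' D hfree hdev H hH ?_ k hk
    simpa using h3
  · have hr := Q.rank
    have h1 : Module.finrank ℝ (S (i₀ + 1)) ≤ Module.finrank ℝ E := Submodule.finrank_le _
    have h2 : Module.finrank ℝ (⊤ : Submodule ℝ E) = 2 := by
      rw [finrank_top]
      omega
    have F : BFlag (hol.comp H.subtype) (⊤ : Submodule ℝ E) (fun _ => ⊤) 0 :=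
      ⟨rfl, rfl, fun i hi => absurd hi (Nat.not_lt_zero _), fun _ _ _ _ _ => Submodule.mem_top,
        fun i hi => absurd hi (Nat.not_lt_zero _)⟩
    have h4 := F.plane_solv (Pool.Agent.Y449.MK.restrict D H hH)
      (fun γ x hx => Subtype.ext (hfree (γ : Γ) x hx)) h2 (a := 0) fun _ _ _ => Submodule.mem_top
    obtain ⟨H', hH', hs⟩ := up_solv hH h4.2
    exact sv_core Pool.Agent.N340.SV.HB.t_hb Pool.Agent.N225.SV.t_mean coc X Γ E dev hol D hfree
      h4.1 H' hH' hs k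

variable {ι : Type} {b : Module.Basis ι ℝ E}

/-- integral linear holonomy and rational flags -/
theorem rational_all [Fintype ι] (D : AffData X Γ E dev hol)
    (hfree : ∀ (γ : Γ) (x : X), γ • x = x → γ = 1)
    {H : Subgroup Γ} (hH : H.FiniteIndex)
    (hint : ∀ (γ : H) (v : E), IsInt b v → IsInt b (lin (hol.comp H.subtype) γ v))
    {S : ℕ → Submodule ℝ E} {m i₀ : ℕ} (h0 : S 0 = ⊥) (hm : S m = ⊤)
    (hle : ∀ i < m, S i ≤ S (i + 1))
    (hinv : ∀ i ≤ m, ∀ γ : H, ∀ v ∈ S i, lin (hol.comp H.subtype) γ v ∈ S i)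
    (hrat : ∀ i ≤ m, RatSub b (S i))
    (hr1 : ∀ i < m, i ≠ i₀ → Module.finrank ℝ (S (i + 1)) ≤ Module.finrank ℝ (S i) + 1)
    (hr2 : Module.finrank ℝ (S (i₀ + 1)) ≤ Module.finrank ℝ (S i₀) + 2) :
    IsHomeomorph dev ∧ ∀ k : ℕ, Module.finrank ℝ E ≤ k + 1 →
      Negligible k (MulAction.orbitRel.Quotient Γ X) := by
  have hsign : ∀ i < m, Module.finrank ℝ (S (i + 1)) ≤ Module.finrank ℝ (S i) + 1 → ∀ γ : H,
      ∃ c : ℝ, (c = 1 ∨ c = -1) ∧ ∀ v ∈ S (i + 1), lin (hol.comp H.subtype) γ v - c • v ∈ S i :=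
    fun i hi hr γ => sign_of_rat (hle i hi) (hrat i hi.le) (hrat (i + 1) hi) hr hint
      (fun γ v hv => hinv i hi.le γ v hv) (fun γ v hv => hinv (i + 1) hi γ v hv) γ
  by_cases hcase : i₀ < m ∧ Module.finrank ℝ (S (i₀ + 1)) = Module.finrank ℝ (S i₀) + 2
  · exact qflag_all D hfree hH (S := S) (m := m) (i₀ := i₀)
      { bot := h0
        top := hm
        lt := hcase.1
        le := hle
        inv := hinv
        sign := fun i hi hik => hsign i hi (hr1 i hi hik)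
        rank := hcase.2
        dense := dense_of_rat (hrat i₀ hcase.1.le) (hrat (i₀ + 1) hcase.1) hcase.2 hint
          (fun γ v hv => hinv (i₀ + 1) hcase.1 γ v hv) }
  · have hdev := rational_complete (Pool.Agent.Y449.MK.restrict D H hH) hint h0 hm hle hinv hrat
      hr1 hr2
    refine ⟨hdev, fun k _ => ?_⟩
    have hall : ∀ i < m, Module.finrank ℝ (S (i + 1)) ≤ Module.finrank ℝ (S i) + 1 := by
      intro i hi
      by_cases hik : i = i₀
      · subst hik
        have : Module.finrank ℝ (S (i + 1)) ≠ Module.finrank ℝ (S i) + 2 := fun h => hcase ⟨hi, h⟩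
        omega
      · exact hr1 i hi hik
    refine sv_flag Pool.Agent.N340.SV.HB.t_hb Pool.Agent.N225.SV.t_mean coc X Γ E dev hol D hfree
      hdev.injective H hH S m ⟨h0, hm, hle, fun i hi γ hγ v hv => hinv i hi ⟨γ, hγ⟩ v hv, 1,
        fun i hi γ hγ => ⟨1, one_pos, fun v hv => ⟨?_, ?_⟩⟩⟩ k
    · obtain ⟨c, hc, h⟩ := hsign i hi (hall i hi) ⟨γ, hγ⟩
      have habs : |c| = 1 := by rcases hc with rfl | rfl <;> simp
      refine ⟨_, h v hv, ?_⟩
      have e1 : (hol γ).linear v - (lin (hol.comp H.subtype) ⟨γ, hγ⟩ v - c • v) = c • v :=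
        sub_sub_cancel _ _
      rw [e1, norm_smul, Real.norm_eq_abs, habs]
      simp
    · obtain ⟨c, hc, h⟩ := hsign i hi (hall i hi) ⟨γ⁻¹, H.inv_mem hγ⟩
      have habs : |c| = 1 := by rcases hc with rfl | rfl <;> simp
      refine ⟨_, h v hv, ?_⟩
      have e1 : (hol γ⁻¹).linear v -
          (lin (hol.comp H.subtype) ⟨γ⁻¹, H.inv_mem hγ⟩ v - c • v) = c • v := sub_sub_cancel _ _
      rw [e1, norm_smul, Real.norm_eq_abs, habs]
      simp

end

end Run7.h675.SV
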