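import Pool.Agent.N278.SV.Lift
import Pool.Agent.N340.SV.HB

/-!
The transfer of finite coverings: if all homology classes of a degree of a finite covering have
`ℓ¹`-seminorm zero then so have the classes of the base.
-/

set_option autoImplicit false

open Pool.Agent.N520.SV Pool.Agent.N340.SV.HB

namespace Run7.h675.SV

section
variable {M N : Type} [TopologicalSpace M] [TopologicalSpace N]

/-- the image of a chain under a continuous map -/
noncomputable def push (f : C(M, N)) (k : ℕ) : Chain k M →ₗ[ℝ] Chain k N :=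
  Finsupp.linearCombination ℝ fun σ => Finsupp.single (f.comp σ) 1

theorem push_single (f : C(M, N)) {k : ℕ} (σ : C(Sx k, M)) :
    push f k (Finsupp.single σ 1) = Finsupp.single (f.comp σ) 1 := by
  rw [push, Finsupp.linearCombination_single, one_smul]

theorem bdry_single {k : ℕ} (σ : C(Sx (k + 1), M)) :
    bdry k (Finsupp.single σ 1) =
      ∑ i : Fin (k + 2), ((-1 : ℝ) ^ (i : ℕ)) • Finsupp.single (σ.comp (face i)) 1 := by
  rw [bdry, Finsupp.linearCombination_single, one_smul]

/-- linear maps on chains which agree on simplices -/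
theorem chain_ext {k : ℕ} {V : Type} [AddCommGroup V] [Module ℝ V] {f g : Chain k M →ₗ[ℝ] V}
    (h : ∀ σ, f (Finsupp.single σ 1) = g (Finsupp.single σ 1)) : f = g := by
  refine Finsupp.lhom_ext fun σ b => ?_
  have e : Finsupp.single σ b = b • (Finsupp.single σ (1 : ℝ)) := by
    rw [Finsupp.smul_single, smul_eq_mul, mul_one]
  rw [e, map_smul, map_smul, h]

theorem push_bdry (f : C(M, N)) {k : ℕ} (c : Chain (k + 1) M) :
    bdry k (push f (k + 1) c) = push f k (bdry k c) := by
  have h : (bdry k).comp (push f (k + 1)) = (push f k).comp (bdry k) := by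
    refine chain_ext fun σ => ?_
    rw [LinearMap.comp_apply, LinearMap.comp_apply, push_single, bdry_single, bdry_single, map_sum]
    refine Finset.sum_congr rfl fun i _ => ?_
    rw [map_smul, push_single]
    rfl
  exact congrArg (fun g => g c) h

theorem norm1_sum {ι : Type} (s : Finset ι) {k : ℕ} (f : ι → Chain k M) :
    norm1 (∑ i ∈ s, f i) ≤ ∑ i ∈ s, norm1 (f i) :=
  Finset.le_sum_of_subadditive norm1 norm1_zero.le norm1_add s f

theorem norm1_push (f : C(M, N)) {k : ℕ} (c : Chain k M) : norm1 (push f k c) ≤ norm1 c := by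
  have h1 : push f k c = ∑ σ ∈ c.support, c σ • Finsupp.single (f.comp σ) (1 : ℝ) := by
    rw [push, Finsupp.linearCombination_apply]
    rfl
  rw [h1]
  refine (norm1_sum _ _).trans ?_
  refine Finset.sum_le_sum fun σ _ => ?_
  rw [norm1_smul, norm1_single, mul_one]

end

section
variable {X Γ : Type} [TopologicalSpace X] [Group Γ] [MulAction Γ X]

/-- the translate of a simplex -/
def act (hc : ∀ γ : Γ, Continuous fun x : X => γ • x) {k : ℕ} (γ : Γ) (s : C(Sx k, X)) :
    C(Sx k, X) := ⟨fun p => γ • s p, (hc γ).comp s.continuous⟩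

/-- the projection to the quotient by a subgroup -/
def pr (H : Subgroup Γ) {k : ℕ} (s : C(Sx k, X)) : C(Sx k, MulAction.orbitRel.Quotient H X) :=
  ⟨fun p => Quotient.mk'' (s p), continuous_quot_mk.comp s.continuous⟩

variable {hc : ∀ γ : Γ, Continuous fun x : X => γ • x} {H : Subgroup Γ} {k : ℕ}

theorem pr_act {a b : Γ} (hab : a * b⁻¹ ∈ H) (s : C(Sx k, X)) :
    pr H (act hc a s) = pr H (act hc b s) := by
  refine ContinuousMap.ext fun p => ?_
  refine Quotient.sound' ?_
  refine ⟨⟨a * b⁻¹, hab⟩, ?_⟩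
  show (a * b⁻¹) • b • s p = a • s p
  rw [smul_smul, inv_mul_cancel_right]

/-- the lifts of a simplex of the base -/
noncomputable def fib (hc : ∀ γ : Γ, Continuous fun x : X => γ • x) (H : Subgroup Γ) {k : ℕ}
    (s : C(Sx k, X)) (c : Γ ⧸ H) : C(Sx k, MulAction.orbitRel.Quotient H X) :=
  pr H (act hc (c.out)⁻¹ s)

theorem fib_mk (s : C(Sx k, X)) (g : Γ) : fib hc H s (g : Γ ⧸ H) = pr H (act hc g⁻¹ s) := by
  refine pr_act ?_ s
  have h1 : (((g : Γ ⧸ H).out : Γ) : Γ ⧸ H) = (g : Γ ⧸ H) := QuotientGroup.out_eq' _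
  have h2 := QuotientGroup.eq.1 h1
  rw [inv_inv]
  exact h2

theorem fib_act (s : C(Sx k, X)) (γ : Γ) (c : Γ ⧸ H) :
    fib hc H (act hc γ s) c = fib hc H s (γ⁻¹ • c) := by
  obtain ⟨g, rfl⟩ := QuotientGroup.mk_surjective c
  have h1 : γ⁻¹ • (g : Γ ⧸ H) = ((γ⁻¹ * g : Γ) : Γ ⧸ H) := rfl
  rw [h1, fib_mk, fib_mk]
  refine congrArg (pr H) (ContinuousMap.ext fun p => ?_)
  show g⁻¹ • γ • s p = (γ⁻¹ * g)⁻¹ • s p
  rw [mul_inv_rev, inv_inv, smul_smul]

variable [Fintype (Γ ⧸ H)]

/-- the sum of the lifts -/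
noncomputable def tr (hc : ∀ γ : Γ, Continuous fun x : X => γ • x) (H : Subgroup Γ)
    [Fintype (Γ ⧸ H)] {k : ℕ} (s : C(Sx k, X)) : Chain k (MulAction.orbitRel.Quotient H X) :=
  ∑ c : Γ ⧸ H, Finsupp.single (fib hc H s c) 1

theorem tr_act (s : C(Sx k, X)) (γ : Γ) : tr hc H (act hc γ s) = tr hc H s := by
  unfold tr
  have h1 := Equiv.sum_comp (MulAction.toPerm γ⁻¹ : Equiv.Perm (Γ ⧸ H))
    (fun c => (Finsupp.single (fib hc H s c) 1 : Chain k (MulAction.orbitRel.Quotient H X)))
  rw [← h1]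
  refine Finset.sum_congr rfl fun c _ => ?_
  rw [fib_act]
  rfl

theorem tr_bdry (s : C(Sx (k + 1), X)) :
    bdry k (tr hc H s) = ∑ i : Fin (k + 2), ((-1 : ℝ) ^ (i : ℕ)) • tr hc H (s.comp (face i)) := by
  unfold tr
  rw [map_sum]
  simp_rw [bdry_single, Finset.smul_sum]
  rw [Finset.sum_comm]
  rfl

end

section
variable {X Γ : Type} [TopologicalSpace X] [T2Space X] [LocallyCompactSpace X] [Group Γ]
  [MulAction Γ X]

/-- **Finite coverings.** -/
theorem negligible_of_finite (hc : ∀ γ : Γ, Continuous fun x : X => γ • x)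
    (hpd : ∀ K : Set X, IsCompact K → {γ : Γ | ∃ x ∈ K, γ • x ∈ K}.Finite)
    (hfree : ∀ (γ : Γ) (x : X), γ • x = x → γ = 1) (H : Subgroup Γ) [hH : H.FiniteIndex] (k : ℕ)
    (h : Negligible k (MulAction.orbitRel.Quotient H X)) :
    Negligible k (MulAction.orbitRel.Quotient Γ X) := by
  classical
  have : Fintype (Γ ⧸ H) := H.fintypeQuotientOfFiniteIndex
  -- the lifts
  have hl := Pool.Agent.N278.SV.t_lift X Γ hc hpd hfree
  choose L hL using fun (k : ℕ) (σ : C(Sx k, MulAction.orbitRel.Quotient Γ X)) => (hl k σ).1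
  let T : (k : ℕ) → Chain k (MulAction.orbitRel.Quotient Γ X) →ₗ[ℝ]
      Chain k (MulAction.orbitRel.Quotient H X) := fun k =>
    Finsupp.linearCombination ℝ fun σ => tr hc H (L k σ)
  have hT : ∀ (k : ℕ) (σ : C(Sx k, MulAction.orbitRel.Quotient Γ X)) (s : C(Sx k, X)),
      (∀ p, (Quotient.mk'' (s p) : MulAction.orbitRel.Quotient Γ X) = σ p) →
      T k (Finsupp.single σ 1) = tr hc H s := by
    intro k σ s hs
    obtain ⟨γ, hγ⟩ := (hl k σ).2 (L k σ) s (hL k σ) hs
    have h1 : s = act hc γ (L k σ) := ContinuousMap.ext hγ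
    rw [h1, tr_act]
    show Finsupp.linearCombination ℝ (fun σ => tr hc H (L k σ)) (Finsupp.single σ 1) = _
    rw [Finsupp.linearCombination_single, one_smul]
  have hTb : ∀ (k : ℕ) (c : Chain (k + 1) (MulAction.orbitRel.Quotient Γ X)),
      bdry k (T (k + 1) c) = T k (bdry k c) := by
    intro k c
    have h1 : (bdry k).comp (T (k + 1)) = (T k).comp (bdry k) := by
      refine chain_ext fun σ => ?_
      rw [LinearMap.comp_apply, LinearMap.comp_apply, hT (k + 1) σ _ (hL (k + 1) σ), tr_bdry,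
        bdry_single, map_sum]
      refine Finset.sum_congr rfl fun i _ => ?_
      rw [map_smul, hT k (σ.comp (face i)) ((L (k + 1) σ).comp (face i)) fun p =>
        hL (k + 1) σ (face i p)]
    exact congrArg (fun g => g c) h1
  -- the projection
  let π : C(MulAction.orbitRel.Quotient H X, MulAction.orbitRel.Quotient Γ X) :=
    ⟨Quotient.lift (fun x : X => (Quotient.mk'' x : MulAction.orbitRel.Quotient Γ X)) (by
      rintro a b ⟨γ, hγ⟩
      refine Quotient.sound' ?_
      exact ⟨(γ : Γ), hγ⟩), Continuous.quotient_lift continuous_quot_mk _⟩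
  have hπ : ∀ (k : ℕ) (c : Chain k (MulAction.orbitRel.Quotient Γ X)),
      push π k (T k c) = (Fintype.card (Γ ⧸ H) : ℝ) • c := by
    intro k c
    have h1 : (push π k).comp (T k) = (Fintype.card (Γ ⧸ H) : ℝ) • LinearMap.id := by
      refine chain_ext fun σ => ?_
      rw [LinearMap.comp_apply, hT k σ _ (hL k σ), tr, map_sum, LinearMap.smul_apply,
        LinearMap.id_apply]
      have h2 : ∀ c : Γ ⧸ H, push π k (Finsupp.single (fib hc H (L k σ) c) 1) =
          Finsupp.single σ 1 := by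
        intro c
        rw [push_single]
        congr 1
        refine ContinuousMap.ext fun p => ?_
        rw [← hL k σ p]
        show (Quotient.mk'' ((c.out)⁻¹ • L k σ p) : MulAction.orbitRel.Quotient Γ X) = _
        exact Quotient.sound' ⟨(c.out)⁻¹, rfl⟩
      rw [Finset.sum_congr rfl fun c _ => h2 c, Finset.sum_const, Finset.card_univ,
        ← Nat.cast_smul_eq_nsmul ℝ]
    exact congrArg (fun g => g c) h1
  -- the end
  have hq : (0 : ℝ) < Fintype.card (Γ ⧸ H) := by
    exact_mod_cast Fintype.card_pos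
  set q : ℝ := (Fintype.card (Γ ⧸ H) : ℝ) with hqd
  intro z hz ε hε
  obtain ⟨c, hc'⟩ := h (T (k + 1) z) (by rw [hTb, hz, map_zero]) (ε * q) (by positivity)
  refine ⟨q⁻¹ • push π (k + 2) c, ?_⟩
  have h1 : z + bdry (k + 1) (q⁻¹ • push π (k + 2) c) =
      q⁻¹ • push π (k + 1) (T (k + 1) z + bdry (k + 1) c) := by
    rw [map_add, hπ, smul_add, smul_smul, inv_mul_cancel₀ hq.ne', one_smul, map_smul, push_bdry]
  rw [h1, norm1_smul, abs_of_pos (inv_pos.2 hq)]
  calc q⁻¹ * norm1 (push π (k + 1) (T (k + 1) z + bdry (k + 1) c))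
      ≤ q⁻¹ * norm1 (T (k + 1) z + bdry (k + 1) c) :=
        mul_le_mul_of_nonneg_left (norm1_push π _) (inv_nonneg.2 hq.le)
    _ < q⁻¹ * (ε * q) := mul_lt_mul_of_pos_left hc' (inv_pos.2 hq)
    _ = ε := by field_simp

end

end Run7.h675.SV
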