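import Pool.Agent.Run7.h262.SV.Cones
import Pool.Agent.Run7.h675.SV.Transfer
import Pool.Agent.Run7.h675.Disc

/-!
Complete closed affine manifolds: one cone for one quotient of a flag, the linear holonomy being
bounded up to scalars on the other quotients.
-/

set_option autoImplicit false

open Pool.Agent.N520.SV Pool.Agent.W689.Mk Filter Topology
open Run7.h262.SV (CvxData ICone lines)

namespace Run7.h675.SV

section
variable {E : Type} [NormedAddCommGroup E] [NormedSpace ℝ E]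

theorem lines_univ : lines (Set.univ : Set E) = ⊤ := by
  rw [eq_top_iff]
  intro v _ f hf
  obtain ⟨c, hc⟩ := hf
  by_contra h0
  have h1 := hc ⟨((c - 1) / f v) • v, Set.mem_univ _, rfl⟩
  rw [map_smul, smul_eq_mul, div_mul_cancel₀ _ h0] at h1
  linarith

end

section
variable {X Γ E : Type} [TopologicalSpace X] [T2Space X] [Group Γ] [MulAction Γ X]
  [NormedAddCommGroup E] [NormedSpace ℝ E] [FiniteDimensional ℝ E] {dev : X → E}
  {hol : Γ →* (E ≃ᵃ[ℝ] E)}

omit [T2Space X] in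
theorem cvx (D : AffData X Γ E dev hol) (hfree : ∀ (γ : Γ) (x : X), γ • x = x → γ = 1)
    (hdev : IsHomeomorph dev) : CvxData X Γ E dev hol := by
  refine ⟨hdev.isOpenEmbedding, ?_, D.equi, hfree, D.pd, ?_⟩
  · rw [hdev.surjective.range_eq]
    exact convex_univ
  · obtain ⟨K, hK, h⟩ := D.cc
    refine ⟨K, hK, fun x => ?_⟩
    obtain ⟨γ, k, hk, rfl⟩ := h x
    refine ⟨γ⁻¹, ?_⟩
    rwa [inv_smul_smul]

/-- the data of a flag with one cone -/
structure OneCone (hol : Γ →* (E ≃ᵃ[ℝ] E)) (S : ℕ → Submodule ℝ E) (r i₀ : ℕ) {U : Type}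
    [NormedAddCommGroup U] [NormedSpace ℝ U] (σ : Γ →* (U ≃ₗ[ℝ] U)) (C : Set U) : Prop where
  bot : S 0 = ⊥
  top : S r = ⊤
  le : ∀ i < r, S i ≤ S (i + 1)
  inv : ∀ i ≤ r, ∀ γ : Γ, ∀ v ∈ S i, (hol γ).linear v ∈ S i
  bdd : ∀ i < r, i ≠ i₀ → ∃ c : ℝ, ∀ γ : Γ, Run7.h262.SV.BddBlock hol (S i) (S (i + 1)) c γ
  cone : ICone σ C
  proper : ∀ A : Set U, IsCompact A → A ⊆ C → ∃ c : ℝ, ∀ γ : Γ,
    (∃ u ∈ A, ∃ t : ℝ, 0 < t ∧ t • σ γ u ∈ A) →
      Run7.h262.SV.BddBlock hol (S i₀) (S (i₀ + 1)) c γ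

omit [T2Space X] in
theorem OneCone.negl [Nonempty X] (D : AffData X Γ E dev hol)
    (hfree : ∀ (γ : Γ) (x : X), γ • x = x → γ = 1) (hdev : IsHomeomorph dev)
    {S : ℕ → Submodule ℝ E} {r i₀ : ℕ} {U : Type} [NormedAddCommGroup U] [NormedSpace ℝ U]
    [FiniteDimensional ℝ U] {σ : Γ →* (U ≃ₗ[ℝ] U)} {C : Set U} (O : OneCone hol S r i₀ σ C)
    (hdim : Module.finrank ℝ U ≤ Module.finrank ℝ E) (k : ℕ) (hk : Module.finrank ℝ E ≤ k + 1) :
    Negligible k (MulAction.orbitRel.Quotient Γ X) := by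
  have h := cvx D hfree hdev
  have hl : lines (Set.range dev) = ⊤ := by
    rw [hdev.surjective.range_eq]
    exact lines_univ
  have hb : ∀ i : ℕ, ∃ c : ℝ, i < r → i ≠ i₀ → ∀ γ : Γ,
      Run7.h262.SV.BddBlock hol (S i) (S (i + 1)) c γ := by
    intro i
    by_cases hi : i < r ∧ i ≠ i₀
    · obtain ⟨c, hc⟩ := O.bdd i hi.1 hi.2
      exact ⟨c, fun _ _ => hc⟩
    · exact ⟨0, fun h1 h2 => absurd ⟨h1, h2⟩ hi⟩
  choose c hc using hb
  refine h.of_cones (p := 1) (U := fun _ => U) S r O.bot (O.top.trans hl.symm) O.le O.inv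
    (fun _ => σ) (fun _ => C) (fun _ => O.cone) ?_ (Or.inl ?_) k hk
  · intro A hA hAC
    obtain ⟨c₀, hc₀⟩ := O.proper (A 0) (hA 0) (hAC 0)
    refine ⟨max c₀ (∑ i ∈ Finset.range r, |c i|), fun γ hγ i hi => ?_⟩
    by_cases hii : i = i₀
    · subst hii
      exact (hc₀ γ (hγ 0)).mono (le_max_left _ _)
    · refine (hc i hi hii γ).mono ((le_abs_self _).trans (le_trans ?_ (le_max_right _ _)))
      exact Finset.single_le_sum (f := fun i => |c i|) (fun i _ => abs_nonneg _)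
        (Finset.mem_range.2 hi)
  · rw [hl, finrank_top]
    simp only [Finset.sum_const, Finset.card_univ, Fintype.card_fin, one_smul]
    omega

/-- **Finite coverings and one cone.** -/
theorem OneCone.negl' [Nonempty X] (D : AffData X Γ E dev hol)
    (hfree : ∀ (γ : Γ) (x : X), γ • x = x → γ = 1) (hdev : IsHomeomorph dev) (H : Subgroup Γ)
    (hH : H.FiniteIndex)
    {S : ℕ → Submodule ℝ E} {r i₀ : ℕ} {U : Type} [NormedAddCommGroup U] [NormedSpace ℝ U]
    [FiniteDimensional ℝ U] {σ : H →* (U ≃ₗ[ℝ] U)} {C : Set U}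
    (O : OneCone (hol.comp H.subtype) S r i₀ σ C)
    (hdim : Module.finrank ℝ U ≤ Module.finrank ℝ E) (k : ℕ) (hk : Module.finrank ℝ E ≤ k + 1) :
    Negligible k (MulAction.orbitRel.Quotient Γ X) := by
  have : LocallyCompactSpace X := by
    have : ProperSpace E := FiniteDimensional.proper_real E
    exact (hdev.homeomorph dev).isOpenEmbedding.locallyCompactSpace
  refine negligible_of_finite D.cont D.pd hfree H k ?_
  exact O.negl (Pool.Agent.Y449.MK.restrict D H hH)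
    (fun γ x hx => Subtype.ext (hfree (γ : Γ) x hx)) hdev hdim k hk

end

end Run7.h675.SV
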