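import Pool.Agent.Run7.h675.SV.One

/-!
Quotients of dimension two: the cone of the positive definite quadratic forms.
-/

set_option autoImplicit false

open Pool.Agent.N520.SV Pool.Agent.W689.Mk Filter Topology Matrix
open Run7.h262.SV (CvxData ICone lines)

namespace Run7.h675.SV

/-- symmetric matrices of size two -/
abbrev Sy : Type := ℝ × ℝ × ℝ

/-- the value of the form -/
def qf (s : Sy) (x y : ℝ) : ℝ := s.1 * x ^ 2 + 2 * s.2.1 * x * y + s.2.2 * y ^ 2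

/-- the positive definite ones -/
def Pos2 : Set Sy := {s | 0 < s.1 ∧ 0 < s.1 * s.2.2 - s.2.1 ^ 2}

theorem pos2_iff (s : Sy) : s ∈ Pos2 ↔ ∀ x y : ℝ, x ≠ 0 ∨ y ≠ 0 → 0 < qf s x y := by
  obtain ⟨a, b, c⟩ := s
  constructor
  · rintro ⟨h1, h2⟩ x y hxy
    have h1' : 0 < a := h1
    have h2' : 0 < a * c - b ^ 2 := h2
    have e : a * qf (a, b, c) x y = (a * x + b * y) ^ 2 + (a * c - b ^ 2) * y ^ 2 := by
      simp only [qf]
      ring
    have h3 : 0 < a * qf (a, b, c) x y := by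
      rw [e]
      by_cases hy : y = 0
      · subst hy
        have hx : x ≠ 0 := by
          rcases hxy with h | h
          · exact h
          · exact absurd rfl h
        have : 0 < (a * x) ^ 2 := by positivity
        simpa using this
      · have h4 : 0 < (a * c - b ^ 2) * y ^ 2 := by positivity
        have h5 : 0 ≤ (a * x + b * y) ^ 2 := sq_nonneg _
        linarith
    exact (mul_pos_iff_of_pos_left h1').1 h3
  · intro h
    have h1 : 0 < a := by
      have := h 1 0 (Or.inl one_ne_zero)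
      simpa [qf] using this
    refine ⟨h1, ?_⟩
    have h2 := h b (-a) (Or.inr (neg_ne_zero.2 h1.ne'))
    have e : qf (a, b, c) b (-a) = a * (a * c - b ^ 2) := by
      simp only [qf]
      ring
    rw [e] at h2
    exact (mul_pos_iff_of_pos_left h1).1 h2

theorem pos2_open : IsOpen Pos2 := by
  refine IsOpen.inter (isOpen_lt continuous_const continuous_fst) ?_
  exact isOpen_lt (f := fun _ : Sy => (0 : ℝ)) (g := fun s : Sy => s.1 * s.2.2 - s.2.1 ^ 2)
    continuous_const (by fun_prop)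

theorem pos2_convex : Convex ℝ Pos2 := by
  intro s hs t ht a b ha hb hab
  rw [pos2_iff] at hs ht ⊢
  intro x y hxy
  have e : qf (a • s + b • t) x y = a * qf s x y + b * qf t x y := by
    simp only [qf, Prod.fst_add, Prod.snd_add, Prod.smul_fst, Prod.smul_snd, smul_eq_mul]
    ring
  rw [e]
  have h1 := hs x y hxy
  have h2 := ht x y hxy
  rcases ha.eq_or_lt with h | h
  · subst h
    rw [zero_add] at hab
    subst hab
    linarith
  · have h3 : 0 < a * qf s x y := mul_pos h h1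
    have h4 : 0 ≤ b * qf t x y := mul_nonneg hb h2.le
    linarith

/-- the action of matrices on forms -/
def sg (m : Matrix (Fin 2) (Fin 2) ℝ) : Sy →ₗ[ℝ] Sy where
  toFun s := (m 0 0 ^ 2 * s.1 + 2 * m 0 0 * m 0 1 * s.2.1 + m 0 1 ^ 2 * s.2.2,
    m 0 0 * m 1 0 * s.1 + (m 0 0 * m 1 1 + m 0 1 * m 1 0) * s.2.1 + m 0 1 * m 1 1 * s.2.2,
    m 1 0 ^ 2 * s.1 + 2 * m 1 0 * m 1 1 * s.2.1 + m 1 1 ^ 2 * s.2.2)
  map_add' := by
    intro s t
    ext <;> simp only [Prod.fst_add, Prod.snd_add] <;> ring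
  map_smul' := by
    intro r s
    ext <;> simp only [Prod.smul_fst, Prod.smul_snd, smul_eq_mul, RingHom.id_apply] <;> ring

theorem qf_sg (m : Matrix (Fin 2) (Fin 2) ℝ) (s : Sy) (x y : ℝ) :
    qf (sg m s) x y = qf s (m 0 0 * x + m 1 0 * y) (m 0 1 * x + m 1 1 * y) := by
  simp only [qf, sg, LinearMap.coe_mk, AddHom.coe_mk]
  ring

/-- the action as a homomorphism -/
def sgHom : Matrix (Fin 2) (Fin 2) ℝ →* Module.End ℝ Sy where
  toFun := sg
  map_one' := by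
    refine LinearMap.ext fun s => ?_
    ext <;> simp [sg]
  map_mul' := by
    intro m n
    refine LinearMap.ext fun s => ?_
    ext <;> simp only [sg, Module.End.mul_apply, LinearMap.coe_mk, AddHom.coe_mk,
      Matrix.mul_apply, Fin.sum_univ_two] <;> ring

section
variable {Γ : Type} [Group Γ]

/-- the action of a group of matrices on forms -/
noncomputable def sgm (M : Γ →* Matrix (Fin 2) (Fin 2) ℝ) : Γ →* (Sy ≃ₗ[ℝ] Sy) :=
  (LinearMap.GeneralLinearGroup.generalLinearEquiv ℝ Sy).toMonoidHom.comp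
    ((sgHom.comp M).toHomUnits)

theorem sgm_apply (M : Γ →* Matrix (Fin 2) (Fin 2) ℝ) (γ : Γ) (s : Sy) :
    sgm M γ s = sg (M γ) s := rfl

theorem mat_inj (M : Γ →* Matrix (Fin 2) (Fin 2) ℝ) (γ : Γ) {x y : ℝ}
    (h0 : M γ 0 0 * x + M γ 1 0 * y = 0) (h1 : M γ 0 1 * x + M γ 1 1 * y = 0) :
    x = 0 ∧ y = 0 := by
  have h : M γ * M γ⁻¹ = 1 := by rw [← map_mul, mul_inv_cancel, map_one]
  have e00 := congrFun (congrFun h 0) 0
  have e01 := congrFun (congrFun h 0) 1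
  have e10 := congrFun (congrFun h 1) 0
  have e11 := congrFun (congrFun h 1) 1
  simp only [Matrix.mul_apply, Fin.sum_univ_two, Matrix.one_apply_eq, ne_eq, Fin.isValue,
    zero_ne_one, one_ne_zero, not_false_eq_true, Matrix.one_apply_ne] at e00 e01 e10 e11
  constructor
  · calc x = (M γ 0 0 * M γ⁻¹ 0 0 + M γ 0 1 * M γ⁻¹ 1 0) * x +
          (M γ 1 0 * M γ⁻¹ 0 0 + M γ 1 1 * M γ⁻¹ 1 0) * y := by rw [e00, e10]; ring
      _ = M γ⁻¹ 0 0 * (M γ 0 0 * x + M γ 1 0 * y) + M γ⁻¹ 1 0 * (M γ 0 1 * x + M γ 1 1 * y) := by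
          ring
      _ = 0 := by rw [h0, h1]; ring
  · calc y = (M γ 0 0 * M γ⁻¹ 0 1 + M γ 0 1 * M γ⁻¹ 1 1) * x +
          (M γ 1 0 * M γ⁻¹ 0 1 + M γ 1 1 * M γ⁻¹ 1 1) * y := by rw [e01, e11]; ring
      _ = M γ⁻¹ 0 1 * (M γ 0 0 * x + M γ 1 0 * y) + M γ⁻¹ 1 1 * (M γ 0 1 * x + M γ 1 1 * y) := by
          ring
      _ = 0 := by rw [h0, h1]; ring

theorem icone (M : Γ →* Matrix (Fin 2) (Fin 2) ℝ) : ICone (sgm M) Pos2 := by
  refine ⟨pos2_open, pos2_convex, ⟨(1, 0, 1), by norm_num [Pos2]⟩, ?_, ?_, ?_⟩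
  · rintro ⟨h, -⟩
    exact lt_irrefl _ h
  · rintro t ht u ⟨h1, h2⟩
    refine ⟨mul_pos ht h1, ?_⟩
    have e : (t • u).1 * (t • u).2.2 - (t • u).2.1 ^ 2 = t ^ 2 * (u.1 * u.2.2 - u.2.1 ^ 2) := by
      simp only [Prod.smul_fst, Prod.smul_snd, smul_eq_mul]
      ring
    rw [e]
    positivity
  · intro γ u hu
    rw [pos2_iff] at hu ⊢
    intro x y hxy
    rw [sgm_apply, qf_sg]
    refine hu _ _ ?_
    by_contra h
    push Not at h
    obtain ⟨hx, hy⟩ := mat_inj M γ h.1 h.2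
    rcases hxy with h1 | h1
    · exact h1 hx
    · exact h1 hy

/-- bounds on compact sets of positive definite forms -/
theorem pos2_bounds {A : Set Sy} (hA : IsCompact A) (hAC : A ⊆ Pos2) :
    ∃ δ R : ℝ, 0 < δ ∧ 0 ≤ R ∧ ∀ s ∈ A, (∀ x y : ℝ, δ * (x ^ 2 + y ^ 2) ≤ qf s x y) ∧
      s.1 ≤ R ∧ s.2.2 ≤ R := by
  rcases A.eq_empty_or_nonempty with rfl | hne
  · exact ⟨1, 0, one_pos, le_rfl, fun s hs => absurd hs (Set.notMem_empty _)⟩
  -- `qf s ≥ (det / trace) |.|²`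
  have hcont : ContinuousOn (fun s : Sy => (s.1 * s.2.2 - s.2.1 ^ 2) / (s.1 + s.2.2)) A := by
    refine ContinuousOn.div (by fun_prop) (by fun_prop) ?_
    intro s hs
    have h1 := hAC hs
    have h2 : 0 < s.2.2 := by
      have := (pos2_iff s).1 h1 0 1 (Or.inr one_ne_zero)
      simpa [qf] using this
    have h3 : 0 < s.1 := h1.1
    positivity
  obtain ⟨s0, hs0, hmin⟩ := hA.exists_isMinOn hne hcont
  obtain ⟨s1, hs1, hmax⟩ := hA.exists_isMaxOn hne (f := fun s : Sy => s.1 + s.2.2) (by fun_prop)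
  have hpos : ∀ s ∈ A, 0 < s.1 ∧ 0 < s.2.2 ∧ 0 < s.1 * s.2.2 - s.2.1 ^ 2 := by
    intro s hs
    have h1 := hAC hs
    have h2 : 0 < s.2.2 := by
      have := (pos2_iff s).1 h1 0 1 (Or.inr one_ne_zero)
      simpa [qf] using this
    exact ⟨h1.1, h2, h1.2⟩
  refine ⟨(s0.1 * s0.2.2 - s0.2.1 ^ 2) / (s0.1 + s0.2.2), s1.1 + s1.2.2, ?_, ?_, ?_⟩
  · obtain ⟨h1, h2, h3⟩ := hpos s0 hs0
    positivity
  · obtain ⟨h1, h2, h3⟩ := hpos s1 hs1
    positivity
  · intro s hs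
    obtain ⟨h1, h2, h3⟩ := hpos s hs
    have h4 : s.1 + s.2.2 ≤ s1.1 + s1.2.2 := hmax hs
    refine ⟨fun x y => ?_, by linarith, by linarith⟩
    have h5 : (s0.1 * s0.2.2 - s0.2.1 ^ 2) / (s0.1 + s0.2.2) ≤
        (s.1 * s.2.2 - s.2.1 ^ 2) / (s.1 + s.2.2) := hmin hs
    refine (mul_le_mul_of_nonneg_right h5 (by positivity)).trans ?_
    rw [div_mul_eq_mul_div, div_le_iff₀ (by positivity)]
    have e : qf s x y * (s.1 + s.2.2) - (s.1 * s.2.2 - s.2.1 ^ 2) * (x ^ 2 + y ^ 2) =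
        (s.1 * x + s.2.1 * y) ^ 2 + (s.2.1 * x + s.2.2 * y) ^ 2 := by
      simp only [qf]
      ring
    nlinarith [sq_nonneg (s.1 * x + s.2.1 * y), sq_nonneg (s.2.1 * x + s.2.2 * y)]

/-- bounds for the matrices -/
theorem mat_bound {s : Sy} {δ R t : ℝ} (hδ : 0 < δ) (ht : 0 < t)
    (hs : ∀ x y : ℝ, δ * (x ^ 2 + y ^ 2) ≤ qf s x y) (m : Matrix (Fin 2) (Fin 2) ℝ)
    (h1 : (t • sg m s).1 ≤ R) (h2 : (t • sg m s).2.2 ≤ R) (i j : Fin 2) :
    Real.sqrt t * |m i j| ≤ Real.sqrt (R / δ) := by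
  have e1 : (t • sg m s).1 = t * qf s (m 0 0) (m 0 1) := by
    simp only [qf, sg, LinearMap.coe_mk, AddHom.coe_mk, Prod.smul_fst, smul_eq_mul]
    ring
  have e2 : (t • sg m s).2.2 = t * qf s (m 1 0) (m 1 1) := by
    simp only [qf, sg, LinearMap.coe_mk, AddHom.coe_mk, Prod.smul_snd, smul_eq_mul]
    ring
  rw [e1] at h1
  rw [e2] at h2
  have h3 : t * (m 0 0 ^ 2 + m 0 1 ^ 2) ≤ R / δ := by
    rw [le_div_iff₀ hδ]
    have := mul_le_mul_of_nonneg_left (hs (m 0 0) (m 0 1)) ht.le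
    linarith
  have h4 : t * (m 1 0 ^ 2 + m 1 1 ^ 2) ≤ R / δ := by
    rw [le_div_iff₀ hδ]
    have := mul_le_mul_of_nonneg_left (hs (m 1 0) (m 1 1)) ht.le
    linarith
  have h5 : t * m i j ^ 2 ≤ R / δ := by
    have p1 : 0 ≤ t * m 0 0 ^ 2 := by positivity
    have p2 : 0 ≤ t * m 0 1 ^ 2 := by positivity
    have p3 : 0 ≤ t * m 1 0 ^ 2 := by positivity
    have p4 : 0 ≤ t * m 1 1 ^ 2 := by positivity
    rw [mul_add] at h3 h4
    fin_cases i <;> fin_cases j <;> simp only [Fin.zero_eta, Fin.mk_one, Fin.isValue] <;> linarith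
  refine Real.le_sqrt_of_sq_le ?_
  rw [mul_pow, Real.sq_sqrt ht.le, sq_abs]
  exact h5

end

section
variable {Γ E : Type} [Group Γ] [NormedAddCommGroup E] [NormedSpace ℝ E] [FiniteDimensional ℝ E]
  {hol : Γ →* (E ≃ᵃ[ℝ] E)}

omit [FiniteDimensional ℝ E] in
/-- a frame of a two-dimensional quotient -/
theorem exists_frame [FiniteDimensional ℝ E] {A B : Submodule ℝ E} (hAB : A ≤ B)
    (hr : Module.finrank ℝ B = Module.finrank ℝ A + 2) :
    ∃ (e : Fin 2 → E) (l : Fin 2 → E →L[ℝ] ℝ), (∀ i, e i ∈ B) ∧ (∀ i, ∀ v ∈ A, l i v = 0) ∧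
      (∀ i j, l i (e j) = if i = j then 1 else 0) ∧ ∀ v ∈ B, v - ∑ j, l j v • e j ∈ A := by
  classical
  let f : B →ₗ[ℝ] (E ⧸ A) := A.mkQ.comp B.subtype
  have hf : ∀ b : B, f b = A.mkQ (b : E) := fun _ => rfl
  have hker : Module.finrank ℝ (LinearMap.ker f) = Module.finrank ℝ A := by
    have h1 : LinearMap.ker f = A.comap B.subtype := by
      ext v
      rw [LinearMap.mem_ker, hf, Submodule.mkQ_apply, Submodule.Quotient.mk_eq_zero]
      rfl
    rw [h1]
    exact (Submodule.comapSubtypeEquivOfLe hAB).finrank_eq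
  have hran : Module.finrank ℝ (LinearMap.range f) = 2 := by
    have h1 := f.finrank_range_add_finrank_ker
    omega
  let b : Module.Basis (Fin 2) ℝ (LinearMap.range f) := Module.finBasisOfFinrankEq ℝ _ hran
  have he : ∀ i, ∃ v : B, f v = b i := fun i => (b i).2
  choose e he using he
  have hl : ∀ i, ∃ g : (E ⧸ A) →ₗ[ℝ] ℝ, g.comp (LinearMap.range f).subtype = b.coord i :=
    fun i => LinearMap.exists_extend _
  choose g hg using hl
  have hg' : ∀ i (v : B), g i (f v) = b.coord i ⟨f v, LinearMap.mem_range_self f v⟩ := by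
    intro i v
    rw [← hg]
    rfl
  refine ⟨fun i => (e i : E), fun i => LinearMap.toContinuousLinearMap ((g i).comp A.mkQ),
    fun i => (e i).2, ?_, ?_, ?_⟩
  · intro i v hv
    show g i (A.mkQ v) = 0
    rw [Submodule.mkQ_apply, (Submodule.Quotient.mk_eq_zero A).2 hv, map_zero]
  · intro i j
    show g i (f (e j)) = _
    rw [hg']
    have h1 : (⟨f (e j), LinearMap.mem_range_self f (e j)⟩ : LinearMap.range f) = b j :=
      Subtype.ext (he j)
    rw [h1, Module.Basis.coord_apply, b.repr_self, Finsupp.single_apply]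
    by_cases h : i = j
    · rw [if_pos h, if_pos h.symm]
    · rw [if_neg h, if_neg (fun h' => h h'.symm)]
  · intro v hv
    rw [← Submodule.Quotient.mk_eq_zero, ← Submodule.mkQ_apply, map_sub, map_sum, sub_eq_zero]
    have h1 := b.sum_repr ⟨f ⟨v, hv⟩, LinearMap.mem_range_self f _⟩
    have h2 := congrArg (Subtype.val) h1
    rw [← (show f ⟨v, hv⟩ = A.mkQ v from rfl)]
    refine h2.symm.trans ?_
    rw [AddSubmonoidClass.coe_finsetSum]
    refine Finset.sum_congr rfl fun j _ => ?_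
    rw [map_smul]
    have h3 : A.mkQ (e j : E) = (b j : E ⧸ A) := he j
    rw [h3]
    show b.repr _ j • (b j : E ⧸ A) = g j (A.mkQ v) • (b j : E ⧸ A)
    congr 1
    exact (hg' j ⟨v, hv⟩).symm

/-- **The cone of a two-dimensional quotient.** -/
theorem plane_cone {A B : Submodule ℝ E} (hAB : A ≤ B)
    (hr : Module.finrank ℝ B = Module.finrank ℝ A + 2)
    (hA : ∀ γ : Γ, ∀ v ∈ A, (hol γ).linear v ∈ A) (hB : ∀ γ : Γ, ∀ v ∈ B, (hol γ).linear v ∈ B) :
    ∃ σ : Γ →* (Sy ≃ₗ[ℝ] Sy), ICone σ Pos2 ∧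
      ∀ K : Set Sy, IsCompact K → K ⊆ Pos2 → ∃ c : ℝ, ∀ γ : Γ,
        (∃ u ∈ K, ∃ t : ℝ, 0 < t ∧ t • σ γ u ∈ K) → Run7.h262.SV.BddBlock hol A B c γ := by
  classical
  obtain ⟨e, l, he, hl, hle, hv⟩ := exists_frame hAB hr
  have hmul : ∀ (γ δ : Γ) (v : E), (hol (γ * δ)).linear v = (hol γ).linear ((hol δ).linear v) := by
    intro γ δ v
    rw [map_mul]
    rfl
  -- expansions
  have hexp : ∀ (γ : Γ), ∀ v ∈ B,
      (hol γ).linear v - ∑ j, ∑ i, (l j v * l i ((hol γ).linear (e j))) • e i ∈ A := by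
    intro γ v hv0
    have h1 := hA γ _ (hv v hv0)
    have h2 : ∑ j, l j v • ((hol γ).linear (e j) - ∑ i, l i ((hol γ).linear (e j)) • e i) ∈ A :=
      A.sum_mem fun j _ => A.smul_mem _ (hv _ (hB γ _ (he j)))
    have h3 := A.add_mem h1 h2
    convert h3 using 1
    rw [map_sub, map_sum]
    simp only [map_smul, smul_sub, Finset.smul_sum, smul_smul, Finset.sum_sub_distrib]
    abel
  let M : Γ →* Matrix (Fin 2) (Fin 2) ℝ :=
    { toFun := fun γ => Matrix.of fun i j => l i ((hol γ).linear (e j))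
      map_one' := by
        ext i j
        rw [Matrix.of_apply, Matrix.one_apply]
        have h1 : (hol 1).linear (e j) = e j := by
          rw [map_one]
          rfl
        rw [h1, hle]
      map_mul' := by
        intro γ δ
        ext i j
        rw [Matrix.of_apply, Matrix.mul_apply]
        have h1 := hv _ (hB δ _ (he j))
        have h2 := hl i _ (hA γ _ h1)
        rw [hmul]
        rw [map_sub, map_sub, sub_eq_zero] at h2
        rw [h2, map_sum, map_sum]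
        refine Finset.sum_congr rfl fun k _ => ?_
        rw [map_smul, map_smul, smul_eq_mul, Matrix.of_apply, Matrix.of_apply, mul_comm] }
  have hM : ∀ γ i j, M γ i j = l i ((hol γ).linear (e j)) := fun γ i j => rfl
  refine ⟨sgm M, icone M, fun K hK hKC => ?_⟩
  obtain ⟨δ, R, hδ, hR, hb⟩ := pos2_bounds hK hKC
  set N : ℝ := ∑ j, ∑ i, ‖l j‖ * ‖e i‖ with hN
  refine ⟨Real.sqrt (R / δ) * N, fun γ hγ => ?_⟩
  obtain ⟨u, hu, t, ht, hu'⟩ := hγ
  -- the main estimate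
  have key : ∀ (γ : Γ) (r : ℝ), 0 < r → (∀ i j, r * |M γ i j| ≤ Real.sqrt (R / δ)) →
      ∀ v ∈ B, ∃ w ∈ A, ‖r • (hol γ).linear v - w‖ ≤ Real.sqrt (R / δ) * N * ‖v‖ := by
    intro γ r hr hm v hv0
    refine ⟨_, A.smul_mem r (hexp γ v hv0), ?_⟩
    rw [← smul_sub, sub_sub_cancel, Finset.smul_sum]
    refine (norm_sum_le _ _).trans ?_
    rw [hN, mul_assoc, Finset.sum_mul, Finset.mul_sum]
    refine Finset.sum_le_sum fun j _ => ?_
    rw [Finset.smul_sum]
    refine (norm_sum_le _ _).trans ?_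
    rw [Finset.sum_mul, Finset.mul_sum]
    refine Finset.sum_le_sum fun i _ => ?_
    rw [norm_smul, norm_smul, Real.norm_eq_abs, Real.norm_eq_abs, abs_of_pos hr, abs_mul]
    have h1 := hm i j
    have h2 : |l j v| ≤ ‖l j‖ * ‖v‖ := (l j).le_opNorm v
    rw [hM] at h1
    calc r * (|l j v| * |l i ((hol γ).linear (e j))| * ‖e i‖)
        = (r * |l i ((hol γ).linear (e j))|) * (|l j v| * ‖e i‖) := by ring
      _ ≤ Real.sqrt (R / δ) * ((‖l j‖ * ‖v‖) * ‖e i‖) := by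
          refine mul_le_mul h1 (mul_le_mul_of_nonneg_right h2 (norm_nonneg _)) (by positivity)
            (Real.sqrt_nonneg _)
      _ = Real.sqrt (R / δ) * (‖l j‖ * ‖e i‖ * ‖v‖) := by ring
  have hst : 0 < Real.sqrt t := Real.sqrt_pos.2 ht
  have b1 : ∀ i j, Real.sqrt t * |M γ i j| ≤ Real.sqrt (R / δ) := by
    intro i j
    have h1 := (hb _ hu').2
    rw [sgm_apply] at h1
    exact mat_bound hδ ht (hb u hu).1 (M γ) h1.1 h1.2 i j
  have b2 : ∀ i j, (Real.sqrt t)⁻¹ * |M γ⁻¹ i j| ≤ Real.sqrt (R / δ) := by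
    intro i j
    have e1 : t⁻¹ • sgm M γ⁻¹ (t • sgm M γ u) = u := by
      rw [map_smul, smul_smul, inv_mul_cancel₀ ht.ne', one_smul]
      have : sgm M γ⁻¹ (sgm M γ u) = (sgm M γ⁻¹ * sgm M γ) u := rfl
      rw [this, ← map_mul, inv_mul_cancel, map_one]
      rfl
    have h1 := (hb _ hu).2
    rw [← e1, sgm_apply] at h1
    rw [← Real.sqrt_inv]
    exact mat_bound hδ (inv_pos.2 ht) (hb _ hu').1 (M γ⁻¹) h1.1 h1.2 i j
  exact ⟨Real.sqrt t, hst, fun v hv0 => ⟨key γ _ hst b1 v hv0, key γ⁻¹ _ (inv_pos.2 hst) b2 v hv0⟩⟩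

end

end Run7.h675.SV
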